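import Mathlib
import Pool.Prelude.Def_F_8adaa765
import Pool.Agent.TH437.GR.Normal

set_option autoImplicit false

/-!
`S(n)` has normal order `e^(-γ) log log n`.
-/

namespace Pool.Agent.Results.MP_8775f9_nt.NormalOrder

open Filter N435e839e

/-- `S(n)` has normal order `e^(-γ) log log n`: for every `ε > 0` the set of all `n` with
`|S(n) / log log n - e^(-γ)| ≥ ε` has natural density zero. In particular `S(n)` tends to infinity
for almost all `n`: for every `C` the set of all `n` with `S(n) ≤ C` has natural density zero. -/
theorem result :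
    (∀ ε : ℝ, 0 < ε → Tendsto (fun N : ℕ => (((Finset.range N).filter
      (fun n : ℕ => ε ≤ |totalSum false n / Real.log (Real.log n) -
        Real.exp (-Real.eulerMascheroniConstant)|)).card : ℝ) / N) atTop (nhds 0)) ∧
    (∀ C : ℝ, Tendsto (fun N : ℕ => (((Finset.range N).filter
      (fun n => totalSum false n ≤ C)).card : ℝ) / N) atTop (nhds 0)) :=
  ⟨fun _ hε => Pool.Agent.TH437.GR.normal_total false hε,
    fun C => Pool.Agent.TH437.GR.almost_all_total false C⟩

end Pool.Agent.Results.MP_8775f9_nt.NormalOrder
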